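import Pool.Agent.Q28.LF.Defs

/-!
# Families of zero-cycles with values in a surface: proofs
-/

open CategoryTheory AlgebraicGeometry

universe u v w

namespace Pool.Agent.Q28.LF

open Pool.Agent.H914 Pool.Agent.H914.VarClass Pool.Agent.H914.VarClass.Obj Pool.Agent.W492.BB
  Pool.Agent.W550.Corr Pool.Agent.TH133

variable {k : Type u} [Field k] {𝒱 : VarClass k} {C : TheoryData.{u, v, 0} 𝒱 ℚ}
  [hC : IsChowProj C] {X Y Z S T B D : 𝒱.Obj}

lemma coact_eq (Γ : C.A (X.prod Y)) (b : C.A Y) : coact C Γ b = C.act (tp C Γ) b :=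
  (act_tp C Γ b).symm

lemma act_tp_comp (Γ : C.A (X.prod Y)) (Δ : C.A (Y.prod Z)) (b : C.A Z) :
    C.act (tp C (C.comp Γ Δ)) b = C.act (tp C Γ) (C.act (tp C Δ) b) := by
  rw [tp_comp C (ch_comm C), C.act_comp]

omit hC in
lemma act_smul' (q : ℚ) (Γ : C.A (X.prod Y)) (b : C.A X) : C.act (q • Γ) b = q • C.act Γ b := by
  rw [C.act_apply, smul_mul_assoc, map_smul]
  rfl

lemma act_tp_graph (f : X ⟶ Y) (b : C.A Y) : C.act (tp C (C.graph f)) b = C.pull f b := by
  rw [act_tp, TheoryData.graph, ← C.proj_right, ← C.push_comp, ← C.pull_comp, lift_fst, lift_snd,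
    one_mul, C.push_id]

/-- The action of the elements of a span vanishes if that of the generators does. -/
lemma span_tp {P : C.A (X.prod Y) → Prop} {Γ : C.A (X.prod Y)}
    (hΓ : Γ ∈ Submodule.span ℚ {g | P g}) {w : C.A Y} (h : ∀ g, P g → C.act (tp C g) w = 0) :
    C.act (tp C Γ) w = 0 := by
  induction hΓ using Submodule.span_induction with
  | mem x hx => exact h x hx
  | zero => rw [tp_zero]; exact C.act_zero w
  | add x y _ _ hx hy => rw [tp_add, C.act_add, hx, hy, add_zero]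
  | smul a x _ hx => rw [tp_smul, act_smul', hx, smul_zero]

lemma span_act {P : C.A (X.prod Y) → Prop} {Γ : C.A (X.prod Y)}
    (hΓ : Γ ∈ Submodule.span ℚ {g | P g}) {w : C.A X} (h : ∀ g, P g → C.act g w = 0) :
    C.act Γ w = 0 := by
  induction hΓ using Submodule.span_induction with
  | mem x hx => exact h x hx
  | zero => exact C.act_zero w
  | add x y _ _ hx hy => rw [C.act_add, hx, hy, add_zero]
  | smul a x _ hx => rw [act_smul', hx, smul_zero]

/-- Correspondences through curves kill `F^2` in the other direction. -/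
lemma throughCurves_tp {Γ : C.A (Y.prod T)} (hΓ : Γ ∈ throughCurves C Y T) {w : C.A T}
    (hT : T.dim = 2) (hw : C.Deg 2 w) : C.act (tp C Γ) w = 0 := by
  refine span_tp hΓ ?_
  rintro g ⟨B, α, β, hB, hα, hβ, rfl⟩
  rw [act_tp_comp]
  have h1 : C.act (tp C β) w = 0 := by
    have h2 : tp C β ∈ C.gr (T.prod B) ((T.dim : ℤ) + 0) := by
      have := tp_mem C hβ
      rw [hT, add_zero]; exact this
    exact hC.gr_top B _ _ (act_mem' C h2 hw) (by rw [hB]; norm_num)
  rw [h1, C.act_map_zero]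

/-- The main principle. -/
lemma coact_zero (hBS : BlochSrinivas C) (hT : T.dim = 2) {Γ : C.A (Y.prod T)} (hΓ : C.Deg 2 Γ)
    (hf : FiniteDim C (Y := Y) (T := T) (C.act Γ)) {w : C.A T} (hw : F2 C T w) :
    C.act (tp C Γ) w = 0 := by
  obtain ⟨Γ', hΓ', hz⟩ := hf
  obtain ⟨o, ho, ho1, ho2⟩ := hC.exists_deg_one Y
  have hoD : HasDegree C o 1 := fun Z => ⟨by rw [one_smul]; exact ho2 Z, by rw [one_smul]; exact ho1 Z⟩
  set c : C.A T := C.act (Γ - Γ') o with hc
  have hΓ'm : Γ' ∈ C.gr (Y.prod T) 2 := by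
    refine Submodule.span_le.2 ?_ hΓ'
    rintro g ⟨B, α, β, hB, hα, hβ, rfl⟩
    have h1 : α ∈ C.gr (Y.prod B) ((Y.dim : ℤ) + (1 - Y.dim)) := by
      have e : (Y.dim : ℤ) + (1 - Y.dim) = 1 := by ring
      rwa [e]
    have h2 : β ∈ C.gr (B.prod T) ((B.dim : ℤ) + 1) := by
      rw [hB]; exact hβ
    have h3 := comp_mem C h1 h2
    have e : (Y.dim : ℤ) + (1 - Y.dim + 1) = 2 := by ring
    rw [e] at h3; exact h3
  have hcm : c ∈ C.gr T 2 := by
    have h1 : Γ - Γ' ∈ C.gr (Y.prod T) ((Y.dim : ℤ) + (2 - Y.dim)) := by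
      have e : (Y.dim : ℤ) + (2 - Y.dim) = 2 := by ring
      rw [e]; exact Submodule.sub_mem _ hΓ hΓ'm
    have h2 := act_mem' C h1 ho
    have e : (Y.dim : ℤ) + (2 - Y.dim) = 2 := by ring
    rwa [e] at h2
  -- the modified correspondence acts as zero on zero-cycles
  have hmem : Γ - Γ' - C.ext (1 : C.A Y) c ∈ C.gr (Y.prod T) 2 := by
    refine Submodule.sub_mem _ (Submodule.sub_mem _ hΓ hΓ'm) ?_
    have := ext_mem' (C := C) (C.one_mem Y) hcm
    rwa [zero_add] at this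
  have hact : ∀ z : C.A Y, C.Deg Y.dim z → C.act (Γ - Γ' - C.ext (1 : C.A Y) c) z = 0 := by
    intro z hzd
    obtain ⟨q, hq⟩ := exists_hasDegree (C := C) hzd
    have h1 : ZeroCycle C Y (z - q • o) := by
      refine ⟨Submodule.sub_mem _ hzd (Submodule.smul_mem _ q ho), fun Z => ?_⟩
      constructor
      · rw [map_sub, map_sub, map_smul, map_smul, (hq Z).1, (hoD Z).1, one_smul, sub_self,
          zero_smul]
      · rw [map_sub, map_sub, map_smul, map_smul, (hq Z).2, (hoD Z).2, one_smul, sub_self,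
          zero_smul]
    have h2 := hz _ h1
    have h3 : C.act (Γ - Γ') (z - q • o) = 0 := by
      rw [C.act_sub, h2, sub_self]
    rw [act_map_sub, act_map_smul, sub_eq_zero] at h3
    rw [C.act_sub (Γ - Γ'), h3, act_ext' (C := C) (v := (1 : C.A Y)) (x := z) (q := q)
      (by rw [one_mul]; exact hq), sub_self]
  have hspan := hBS Y T 2 _ hmem hact
  have h1 : C.act (tp C (Γ - Γ' - C.ext (1 : C.A Y) c)) w = 0 := by
    refine span_tp hspan ?_
    rintro g ⟨D, β, α, hD, hβ, hα, rfl⟩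
    rw [act_tp_comp, hw.2 D (tp C α) (by have := tp_mem C hα; norm_num at this; exact this),
      C.act_map_zero]
  have h2 : C.act (tp C Γ') w = 0 := throughCurves_tp hΓ' hT hw.1
  have h3 : C.act (tp C (C.ext (1 : C.A Y) c)) w = 0 := by
    rw [tp_ext]
    have h4 : c * w ∈ C.gr T (2 + 2) := C.mul_mem hcm hw.1
    refine act_ext_zero_of_lt h4 ?_
    rw [hT]; norm_num
  rw [tp_sub, tp_sub, C.act_sub, C.act_sub, h2, h3, sub_zero, sub_zero] at h1
  exact h1

lemma throughCurves_mem {Γ : C.A (Y.prod T)} (h : Γ ∈ throughCurves C Y T) :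
    Γ ∈ C.gr (Y.prod T) 2 := by
  refine Submodule.span_le.2 ?_ h
  rintro g ⟨B, α, β, hB, hα, hβ, rfl⟩
  have h1 : α ∈ C.gr (Y.prod B) ((Y.dim : ℤ) + (1 - Y.dim)) := by
    have e : (Y.dim : ℤ) + (1 - Y.dim) = 1 := by ring
    rwa [e]
  have h2 : β ∈ C.gr (B.prod T) ((B.dim : ℤ) + 1) := by
    rw [hB]; exact hβ
  have h3 := comp_mem C h1 h2
  have e : (Y.dim : ℤ) + (1 - Y.dim + 1) = 2 := by ring
  rw [e] at h3; exact h3

/-- Correspondences through curves, composed with correspondences of degree zero between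
surfaces. -/
lemma throughCurves_comp {Γ : C.A (Y.prod S)} (h : Γ ∈ throughCurves C Y S) (hS : S.dim = 2)
    {Φ : C.A (S.prod T)} (hΦ : C.Deg 2 Φ) : C.comp Γ Φ ∈ throughCurves C Y T := by
  induction h using Submodule.span_induction with
  | mem x hx =>
    obtain ⟨B, α, β, hB, hα, hβ, rfl⟩ := hx
    refine Submodule.subset_span ⟨B, α, C.comp β Φ, hB, hα, ?_, comp_assoc C _ _ _⟩
    have h1 : β ∈ C.gr (B.prod S) ((B.dim : ℤ) + 1) := by rw [hB]; exact hβ
    have h2 : Φ ∈ C.gr (S.prod T) ((S.dim : ℤ) + 0) := by rw [hS, add_zero]; exact hΦ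
    have h3 := comp_mem C h1 h2
    have e : (B.dim : ℤ) + (1 + 0) = 2 := by rw [hB]; norm_num
    rw [e] at h3; exact h3
  | zero => rw [zero_comp]; exact Submodule.zero_mem _
  | add x y _ _ hx hy => rw [add_comp]; exact Submodule.add_mem _ hx hy
  | smul a x _ hx =>
    have : C.comp (a • x) Φ = a • C.comp x Φ := by
      have h1 := congrArg (fun L => L Φ) (LinearMap.map_smul (compL C (X := Y) (Y := S) (Z := T)) a x)
      exact h1
    rw [this]; exact Submodule.smul_mem _ _ hx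

/-- The converse of the main principle. -/
lemma finiteDim_of (hBS : BlochSrinivas C) (hAl : AlbaneseProjectors C) (hT : T.dim = 2)
    {Γ : C.A (Y.prod T)} (hΓ : C.Deg 2 Γ) (h : ∀ w, F2 C T w → C.act (tp C Γ) w = 0) :
    FiniteDim C (Y := Y) (T := T) (C.act Γ) := by
  obtain ⟨e, he, hez⟩ := hAl T hT
  have hem := throughCurves_mem he
  obtain ⟨o, ho, ho1, ho2⟩ := hC.exists_deg_one T
  have hoD : HasDegree C o 1 := fun Z => ⟨by rw [one_smul]; exact ho2 Z, by rw [one_smul]; exact ho1 Z⟩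
  have hΓt : tp C Γ ∈ C.gr (T.prod Y) ((T.dim : ℤ) + 0) := by
    rw [hT, add_zero]; exact tp_mem C hΓ
  have hem' : e ∈ C.gr (T.prod T) ((T.dim : ℤ) + 0) := by rw [hT, add_zero]; exact hem
  have hcomp : C.comp e (tp C Γ) ∈ C.gr (T.prod Y) 2 := by
    have h3 := comp_mem C hem' hΓt
    have e1 : (T.dim : ℤ) + (0 + 0) = 2 := by rw [hT]; norm_num
    rw [e1] at h3; exact h3
  set Δ : C.A (T.prod Y) := tp C Γ - C.comp e (tp C Γ) with hΔ
  have hΔm : Δ ∈ C.gr (T.prod Y) 2 := Submodule.sub_mem _ (tp_mem C hΓ) hcomp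
  set c : C.A Y := C.act Δ o with hc
  have hcm : c ∈ C.gr Y 2 := by
    have h1 : Δ ∈ C.gr (T.prod Y) ((T.dim : ℤ) + 0) := by rw [hT, add_zero]; exact hΔm
    have h2 := act_mem' C h1 ho
    rw [hT, add_zero] at h2; exact h2
  have hmem : Δ - C.ext (1 : C.A T) c ∈ C.gr (T.prod Y) 2 := by
    refine Submodule.sub_mem _ hΔm ?_
    have := ext_mem' (C := C) (C.one_mem T) hcm
    rwa [zero_add] at this
  have hact : ∀ z : C.A T, C.Deg T.dim z → C.act (Δ - C.ext (1 : C.A T) c) z = 0 := by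
    intro z hzd
    obtain ⟨q, hq⟩ := exists_hasDegree (C := C) hzd
    have h1 : ZeroCycle C T (z - q • o) := by
      refine ⟨Submodule.sub_mem _ hzd (Submodule.smul_mem _ q ho), fun Z => ?_⟩
      constructor
      · rw [map_sub, map_sub, map_smul, map_smul, (hq Z).1, (hoD Z).1, one_smul, sub_self,
          zero_smul]
      · rw [map_sub, map_sub, map_smul, map_smul, (hq Z).2, (hoD Z).2, one_smul, sub_self,
          zero_smul]
    have h3 : C.act Δ (z - q • o) = 0 := by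
      have h4 := h _ (hez _ h1)
      rw [act_map_sub] at h4
      rw [hΔ, C.act_sub, C.act_comp]
      exact h4
    rw [act_map_sub, act_map_smul, sub_eq_zero] at h3
    rw [C.act_sub Δ, h3, act_ext' (C := C) (v := (1 : C.A T)) (x := z) (q := q)
      (by rw [one_mul]; exact hq), sub_self]
  have hspan := hBS T Y 2 _ hmem hact
  -- transpose
  refine ⟨tp C (Δ - C.ext (1 : C.A T) c), ?_, fun z hz => ?_⟩
  · generalize Δ - C.ext (1 : C.A T) c = Δ' at hspan
    induction hspan using Submodule.span_induction with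
    | mem x hx =>
      obtain ⟨D, β, α, hD, hβ, hα, rfl⟩ := hx
      refine Submodule.subset_span ⟨D, tp C α, tp C β, by omega, ?_, ?_, tp_comp C (ch_comm C) _ _⟩
      · have := tp_mem C hα
        norm_num at this; exact this
      · have := tp_mem C hβ
        rw [hT] at this; exact this
    | zero => rw [tp_zero]; exact Submodule.zero_mem _
    | add x y _ _ hx hy => rw [tp_add]; exact Submodule.add_mem _ hx hy
    | smul a x _ hx => rw [tp_smul]; exact Submodule.smul_mem _ _ hx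
  · have h1 : C.act (tp C (C.ext (1 : C.A T) c)) z = 0 := by
      rw [tp_ext]
      have h4 : c * z ∈ C.gr Y (2 + Y.dim) := C.mul_mem hcm hz.1
      exact act_ext_zero_of_lt h4 (by omega)
    have h2 : C.act (tp C (C.comp e (tp C Γ))) z = 0 := by
      rw [tp_comp C (ch_comm C), tp_tp, C.act_comp]
      have h5 : Γ ∈ C.gr (Y.prod T) ((Y.dim : ℤ) + (2 - Y.dim)) := by
        have e : (Y.dim : ℤ) + (2 - Y.dim) = 2 := by ring
        rw [e]; exact hΓ
      have h6 := act_mem' C h5 hz.1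
      have e6 : (Y.dim : ℤ) + (2 - Y.dim) = 2 := by ring
      rw [e6] at h6
      exact throughCurves_tp he hT h6
    rw [tp_sub, hΔ, tp_sub, C.act_sub, C.act_sub, h1, h2, sub_zero, sub_zero, tp_tp]

omit hC in
lemma act_sum' {n : ℕ} (Γ : Fin n → C.A (X.prod Y)) (a : C.A X) :
    C.act (∑ i, Γ i) a = ∑ i, C.act (Γ i) a := act_sum C Finset.univ Γ a

/-- The relation obtained from a large family. -/
lemma largeFamily_zero (hBS : BlochSrinivas C) (hT : T.dim = 2)
    {Φ : C.A (S.prod T)} (hΦ : C.Deg 2 Φ) (h : LargeFamily Φ) {w : C.A T} (hw : F2 C T w) :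
    C.act (tp C Φ) w = 0 := by
  obtain ⟨n, Y, X, g, f, Ψ, e, β, q, hq, hΨ, hpush, hfin⟩ := h
  have hgr : ∀ {X : 𝒱.Obj} (g : Y ⟶ X) {Φ : C.A (X.prod T)}, C.Deg 2 Φ →
      C.comp (C.graph g) Φ ∈ C.gr (Y.prod T) 2 := by
    intro X g Φ hΦ
    have h1 : C.graph g ∈ C.gr (Y.prod X) ((Y.dim : ℤ) + (X.dim - Y.dim)) := by
      have h := C.push_mem (Obj.lift (𝟙 Y) g) (C.one_mem Y)
      have e1 : (0 : ℤ) + 1 * (((Y.prod X).dim : ℤ) - (Y.dim : ℤ)) =
          (Y.dim : ℤ) + (X.dim - Y.dim) := by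
        rw [dim_prod]; push_cast; ring
      rwa [e1] at h
    have h2 : Φ ∈ C.gr (X.prod T) ((X.dim : ℤ) + (2 - X.dim)) := by
      have e : (X.dim : ℤ) + (2 - X.dim) = 2 := by ring
      rwa [e]
    have h3 := comp_mem C h1 h2
    have e : (Y.dim : ℤ) + (X.dim - Y.dim + (2 - X.dim)) = 2 := by ring
    rw [e] at h3; exact h3
  set Γ : C.A (Y.prod T) := C.comp (C.graph g) Φ + ∑ i, C.comp (C.graph (f i)) (Ψ i) with hΓ
  have hΓm : Γ ∈ C.gr (Y.prod T) 2 :=
    Submodule.add_mem _ (hgr g hΦ) (Submodule.sum_mem _ fun i _ => hgr (f i) (hΨ i).1)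
  have hact : ∀ z, C.act Γ z = C.act Φ (C.down g z) + ∑ i, C.act (Ψ i) (C.down (f i) z) := by
    intro z
    rw [hΓ, C.act_add, act_sum', C.act_comp, C.act_graph]
    congr 1
    refine Finset.sum_congr rfl fun i _ => ?_
    rw [C.act_comp, C.act_graph]
  have hfin' : FiniteDim C (Y := Y) (T := T) (C.act Γ) := by
    obtain ⟨Γ', h1, h2⟩ := hfin
    exact ⟨Γ', h1, fun z hz => by rw [hact]; exact h2 z hz⟩
  have h0 := coact_zero hBS hT hΓm hfin' hw
  -- the relation between pull-backs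
  have hrel : C.pull g (C.act (tp C Φ) w) + ∑ i, C.pull (f i) (C.act (tp C (Ψ i)) w) = 0 := by
    rw [hΓ, tp_add, tp_sum, C.act_add, act_sum', act_tp_comp, act_tp_graph] at h0
    rw [← h0]
    congr 1
    refine Finset.sum_congr rfl fun i _ => ?_
    rw [act_tp_comp, act_tp_graph]
  set P : C.A Y := β * (List.ofFn fun i => C.pull (f i) (e i)).prod with hP
  have hkill : ∀ i, C.pull (f i) (C.act (tp C (Ψ i)) w) * P = 0 := by
    intro i
    have hu : C.act (tp C (Ψ i)) w ∈ C.gr (X i) 2 := by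
      have h1 : tp C (Ψ i) ∈ C.gr (T.prod (X i)) ((T.dim : ℤ) + 0) := by
        rw [hT, add_zero]; exact tp_mem C (hΨ i).1
      have h2 := act_mem' C h1 hw.1
      rwa [add_zero] at h2
    have h1 : C.act (tp C (Ψ i)) w * e i = 0 := by
      have h2 : C.act (tp C (Ψ i)) w * e i ∈ C.gr (X i) (2 + ((X i).dim - 1)) :=
        C.mul_mem hu (hΨ i).2
      exact hC.gr_top _ _ _ h2 (by omega)
    have hdiv : ∀ (l : List (C.A Y)) (a : C.A Y), a ∈ l → ∃ r, l.prod = a * r := by
      intro l a ha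
      induction l with
      | nil => simp at ha
      | cons b l ih =>
        rcases List.mem_cons.1 ha with rfl | h
        · exact ⟨l.prod, List.prod_cons⟩
        · obtain ⟨r, hr⟩ := ih h
          refine ⟨b * r, ?_⟩
          rw [List.prod_cons, hr, ← mul_assoc, ch_comm C b a, mul_assoc]
    obtain ⟨r, hr⟩ := hdiv (List.ofFn fun i => C.pull (f i) (e i)) (C.pull (f i) (e i))
      (List.mem_ofFn.2 ⟨i, rfl⟩)
    rw [hP, hr, ← mul_assoc β, ch_comm C β, mul_assoc, ← mul_assoc, ← map_mul, h1, map_zero,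
      zero_mul]
  have h1 : C.push g ((C.pull g (C.act (tp C Φ) w) +
      ∑ i, C.pull (f i) (C.act (tp C (Ψ i)) w)) * P) = 0 := by
    rw [hrel, zero_mul, map_zero]
  rw [add_mul, Finset.sum_mul, Finset.sum_eq_zero (fun i _ => hkill i), add_zero, C.proj_left] at h1
  have h2 : C.push g P = q • (1 : C.A S) := hpush
  rw [h2, mul_smul_comm, mul_one] at h1
  rcases smul_eq_zero.1 h1 with h3 | h3
  · exact absurd h3 hq
  · exact h3

lemma largeFamily_of_orbit {Φ : C.A (S.prod T)} (hS : S.dim = 2) (hΦ : C.Deg 2 Φ)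
    (h : LargeOrbit Φ) : LargeFamily Φ := by
  obtain ⟨n, Y, f, c, hh, β, q, hc, hq, hdeg, hpush, Γ, hΓ, hz⟩ := h
  refine ⟨n, Y, fun _ => S, f 0, fun i => f i.succ, fun i => ((c 0)⁻¹ * c i.succ) • Φ, hh, β, q, hq,
    fun i => ⟨Submodule.smul_mem _ _ hΦ, ?_⟩, hpush, (c 0)⁻¹ • Γ, Submodule.smul_mem _ _ hΓ,
    fun z hz' => ?_⟩
  · have := hdeg i
    rw [hS]; norm_num; exact this
  · have h1 := hz z hz'
    beta_reduce at h1 ⊢
    rw [act_smul', ← h1, Fin.sum_univ_succ, smul_add, smul_smul, inv_mul_cancel₀ hc, one_smul,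
      Finset.smul_sum]
    congr 1
    refine Finset.sum_congr rfl fun i _ => ?_
    rw [act_smul', smul_smul]

/-- If `Φ` kills `F^2` then it factors through curves on zero-cycles of degree zero. -/
lemma finiteDim_of_kill (hAl : AlbaneseProjectors C) (hS : S.dim = 2) {Φ : C.A (S.prod T)}
    (hΦ : C.Deg 2 Φ) (h : ∀ w, F2 C S w → C.act Φ w = 0) :
    FiniteDim C (Y := S) (T := T) (C.act Φ) := by
  obtain ⟨e, he, hez⟩ := hAl S hS
  refine ⟨C.comp e Φ, throughCurves_comp he hS hΦ, fun z hz => ?_⟩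
  have h1 := h _ (hez z hz)
  rw [act_map_sub, sub_eq_zero] at h1
  rw [C.act_comp]; exact h1

theorem main (hBS : BlochSrinivas C) (hAl : AlbaneseProjectors C) :
    (∀ (Y T : 𝒱.Obj) (Γ : C.A (Y.prod T)), T.dim = 2 → C.Deg 2 Γ →
      (FiniteDim C (Y := Y) (T := T) (C.act Γ) ↔ ∀ w, F2 C T w → coact C Γ w = 0)) ∧
    ∀ (S T : 𝒱.Obj) (Φ : C.A (S.prod T)), S.dim = 2 → T.dim = 2 → C.Deg 2 Φ →
      [∀ w, F2 C S w → C.act Φ w = 0,
        ∀ w, F2 C T w → coact C Φ w = 0,
        FiniteDim C (Y := S) (T := T) (C.act Φ),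
        LargeOrbit Φ,
        LargeFamily Φ].TFAE := by
  refine ⟨fun Y T Γ hT hΓ => ⟨fun h w hw => ?_, fun h => ?_⟩, fun S T Φ hS hT hΦ => ?_⟩
  · rw [coact_eq]; exact coact_zero hBS hT hΓ h hw
  · exact finiteDim_of hBS hAl hT hΓ fun w hw => by rw [← coact_eq]; exact h w hw
  tfae_have 1 → 3 := finiteDim_of_kill hAl hS hΦ
  tfae_have 3 → 4 := by
    intro h
    obtain ⟨Γ, hΓ, hz⟩ := h
    refine ⟨0, S, fun _ => 𝟙 S, fun _ => 1, fun i => i.elim0, 1, 1, one_ne_zero, one_ne_zero,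
      fun i => i.elim0, ?_, Γ, hΓ, fun z hz' => ?_⟩
    · change C.push (𝟙 S) (1 * _) = _
      rw [C.push_id, List.ofFn_zero, List.prod_nil, one_mul, one_smul]
    · rw [← hz z hz']
      beta_reduce
      rw [Fin.sum_univ_one, one_smul]
      change C.act Φ (C.push (𝟙 S) z) = _
      rw [C.push_id]
  tfae_have 4 → 5 := largeFamily_of_orbit hS hΦ
  tfae_have 5 → 2 := by
    intro h w hw
    rw [coact_eq]; exact largeFamily_zero hBS hT hΦ h hw
  tfae_have 2 → 1 := by
    intro h w hw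
    have h1 : FiniteDim C (Y := T) (T := S) (C.act (tp C Φ)) :=
      finiteDim_of_kill hAl hT (tp_mem C hΦ) fun w hw => by rw [← coact_eq]; exact h w hw
    have h2 := coact_zero hBS hS (tp_mem C hΦ) h1 hw
    rwa [tp_tp] at h2
  tfae_finish

end Pool.Agent.Q28.LF
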