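import Pool.Agent.TH133.Ext

/-!
# Families of zero-cycles with values in a surface: definitions
-/

open CategoryTheory AlgebraicGeometry

universe u v w

namespace Pool.Agent.Q28.LF

open Pool.Agent.H914 Pool.Agent.H914.VarClass Pool.Agent.H914.VarClass.Obj Pool.Agent.W492.BB
  Pool.Agent.TH133

variable {k : Type u} [Field k] {𝒱 : VarClass k} (C : TheoryData.{u, v, 0} 𝒱 ℚ)

/-- The action `Γ^* : A(Y) → A(X)`, `b ↦ p_* (Γ · q^* b)` of a class `Γ` on `X × Y`. -/
noncomputable def coact {X Y : 𝒱.Obj} (Γ : C.A (X.prod Y)) (b : C.A Y) : C.A X :=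
  C.down (fst X Y) (C.mul Γ (C.up (snd X Y) b))

/-- The class `z` lies in `CH_0(Y)_0`: it is a zero-cycle of degree zero. -/
def ZeroCycle (Y : 𝒱.Obj) (z : C.A Y) : Prop := C.Deg Y.dim z ∧ HasDegree C z 0

/-- The class `w ∈ CH^2(T)` on the surface `T` lies in `F^2 CH_0(T)`, the kernel of the Albanese map:
all divisors on the products `T × D` map it to zero in `CH^1(D)`. (It suffices to take for `D` the
Picard variety of `T` with the Poincare divisor.) -/
def F2 (T : 𝒱.Obj) (w : C.A T) : Prop :=
  C.Deg 2 w ∧ ∀ (D : 𝒱.Obj) (α : C.A (T.prod D)), C.Deg 1 α → C.act α w = 0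

/-- The correspondences in `CH^2(Y × T)` (families of zero-cycles on the surface `T` with parameter
space `Y`) which factor through curves: sums of compositions of a divisor on `Y × B` and a class in
`CH^2(B × T)`, `B` a curve. -/
noncomputable def throughCurves (Y T : 𝒱.Obj) : Submodule ℚ (C.A (Y.prod T)) :=
  Submodule.span ℚ {Γ | ∃ (B : 𝒱.Obj) (α : C.A (Y.prod B)) (β : C.A (B.prod T)), B.dim = 1 ∧
    C.Deg 1 α ∧ C.Deg 2 β ∧ Γ = C.comp α β}

/-- The map `φ` on zero-cycles of degree zero of `Y`, with values in the zero-cycles of the surface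
`T`, is finite-dimensional: it factors through zero-cycles on curves. -/
def FiniteDim {Y T : 𝒱.Obj} (φ : C.A Y → C.A T) : Prop :=
  ∃ Γ ∈ throughCurves C Y T, ∀ z : C.A Y, ZeroCycle C Y z → φ z = C.act Γ z

/-- A principle of Bloch and Srinivas, for varieties over a universal domain like the complex
numbers: a cycle `Γ` on `Y × T` which acts as zero on the zero-cycles of `Y` is supported on
`D × T` for a divisor `D` of `Y`, so it is a sum of compositions of the restriction to (resolutions
of the components of) `D` and of cycles of codimension one less. -/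
def BlochSrinivas : Prop :=
  ∀ (Y T : 𝒱.Obj) (i : ℤ) (Γ : C.A (Y.prod T)), C.Deg i Γ →
    (∀ z : C.A Y, C.Deg Y.dim z → C.act Γ z = 0) →
      Γ ∈ Submodule.span ℚ {g | ∃ (D : 𝒱.Obj) (β : C.A (Y.prod D)) (α : C.A (D.prod T)),
        D.dim + 1 = Y.dim ∧ C.Deg Y.dim β ∧ C.Deg (i - 1) α ∧ g = C.comp β α}

/-- Every zero-cycle of degree zero on a surface `S` agrees, modulo the kernel of the Albanese map,
with its image under one correspondence which factors through curves (the projector to the
Albanese part of the motive of `S` constructed by Murre, which factors through a hyperplane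
section). -/
def AlbaneseProjectors : Prop :=
  ∀ S : 𝒱.Obj, S.dim = 2 → ∃ e ∈ throughCurves C S S, ∀ z : C.A S, ZeroCycle C S z →
    F2 C S (z - C.act e z)

variable {C}

/-- The zero-cycles on `T` assigned by `Φ ∈ CH^2(S × T)` to the points of the surface `S` admit a
large orbit: there are a variety `Y` with maps `f 0, …, f n : Y ⟶ S`, rational numbers
`c 0 ≠ 0, c 1, …, c n`, such that the zero-cycles `∑ c i Φ_* (f i y)` on `T` move only in a
finite-dimensional family, and, for classes `h 1, …, h n ∈ CH^1(S)` and some class `β` on `Y`, the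
push-forward under `f 0` of the class `β · f_1^* h_1 ⋯ f_n^* h_n` is a nonzero multiple of the
class of `S` (the family contains a subvariety of dimension at least `n + 2` of `S^(n+1)` which
meets the products of a general point and of `n` curves). -/
def LargeOrbit {S T : 𝒱.Obj} (Φ : C.A (S.prod T)) : Prop :=
  ∃ (n : ℕ) (Y : 𝒱.Obj) (f : Fin (n + 1) → (Y ⟶ S)) (c : Fin (n + 1) → ℚ) (h : Fin n → C.A S)
    (β : C.A Y) (q : ℚ), c 0 ≠ 0 ∧ q ≠ 0 ∧ (∀ i, C.Deg 1 (h i)) ∧
      C.down (f 0) (C.mul β (List.ofFn fun i => C.up (f i.succ) (h i)).prod) = q • (1 : C.A S) ∧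
      FiniteDim C (Y := Y) (T := T) fun z => ∑ i, c i • C.act Φ (C.down (f i) z)

/-- A large family of relations between the zero-cycles assigned by `Φ ∈ CH^2(S × T)` to the points
of `S` and arbitrary other families of zero-cycles on `T`: there are a variety `Y` with maps
`g : Y ⟶ S` and `f i : Y ⟶ X i`, and families `Ψ i ∈ CH^2(X i × T)`, such that the zero-cycles
`Φ_* (g y) + ∑ (Ψ i)_* (f i y)` on `T` move only in a finite-dimensional family, and, for classes
`e i ∈ CH^(dim X i - 1)(X i)` and some class `β` on `Y`, the push-forward under `g` of the class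
`β · ∏ (f i)^* (e i)` is a nonzero multiple of the class of `S`. -/
def LargeFamily {S T : 𝒱.Obj} (Φ : C.A (S.prod T)) : Prop :=
  ∃ (n : ℕ) (Y : 𝒱.Obj) (X : Fin n → 𝒱.Obj) (g : Y ⟶ S) (f : ∀ i, Y ⟶ X i)
    (Ψ : ∀ i, C.A ((X i).prod T)) (e : ∀ i, C.A (X i)) (β : C.A Y) (q : ℚ), q ≠ 0 ∧
      (∀ i, C.Deg 2 (Ψ i) ∧ C.Deg ((X i).dim - 1) (e i)) ∧
      C.down g (C.mul β (List.ofFn fun i => C.up (f i) (e i)).prod) = q • (1 : C.A S) ∧
      FiniteDim C (Y := Y) (T := T) fun z =>
        C.act Φ (C.down g z) + ∑ i, C.act (Ψ i) (C.down (f i) z)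

end Pool.Agent.Q28.LF
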